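import Pool.Agent.helper42.NS.Spec

/-!
# Rigidity: the moments determine the graph
-/

namespace Pool.Agent.helper42.NS

open Polynomial Matrix

/-- Moving a power of a symmetric matrix to the other side. -/
theorem RIG_move {m : ℕ} (H : Matrix (Fin m) (Fin m) ℤ) (hH : ∀ i j, H i j = H j i)
    (l s r : ℕ) (v w : Fin m → ℤ) :
    (H ^ l).mulVec v ⬝ᵥ (H ^ s).mulVec ((H ^ r).mulVec w) = v ⬝ᵥ (H ^ (l + s + r)).mulVec w := by
  have hT : Hᵀ = H := by
    ext i j
    exact hH j i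
  have hTl : (H ^ l)ᵀ = H ^ l := by rw [Matrix.transpose_pow, hT]
  have h1 : (H ^ l).mulVec v = Matrix.vecMul v (H ^ l) := by
    have h2 := Matrix.vecMul_transpose (H ^ l) v
    rw [hTl] at h2
    exact h2.symm
  rw [h1, ← Matrix.dotProduct_mulVec, Matrix.mulVec_mulVec, Matrix.mulVec_mulVec, ← pow_add,
    ← pow_add, add_assoc]

/-- A bilinear identity which holds on generators holds on the span. -/
theorem RIG_span {m : ℕ} (M M' : Matrix (Fin m) (Fin m) ℤ)
    (G : Set ((Fin m → ℤ) × (Fin m → ℤ)))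
    (hG : ∀ p ∈ G, ∀ q ∈ G, p.1 ⬝ᵥ M.mulVec q.1 = p.2 ⬝ᵥ M'.mulVec q.2)
    (p q : (Fin m → ℤ) × (Fin m → ℤ)) (hp : p ∈ Submodule.span ℤ G)
    (hq : q ∈ Submodule.span ℤ G) : p.1 ⬝ᵥ M.mulVec q.1 = p.2 ⬝ᵥ M'.mulVec q.2 := by
  have h1 : ∀ p ∈ G, ∀ q ∈ Submodule.span ℤ G,
      p.1 ⬝ᵥ M.mulVec q.1 = p.2 ⬝ᵥ M'.mulVec q.2 := by
    intro p hp q hq
    induction hq using Submodule.span_induction with
    | mem x hx => exact hG p hp x hx
    | zero => simp
    | add x y _ _ hx hy =>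
      rw [Prod.fst_add, Prod.snd_add, Matrix.mulVec_add, Matrix.mulVec_add, dotProduct_add,
        dotProduct_add, hx, hy]
    | smul c x _ hx =>
      rw [Prod.smul_fst, Prod.smul_snd, Matrix.mulVec_smul, Matrix.mulVec_smul, dotProduct_smul,
        dotProduct_smul, hx]
  induction hp using Submodule.span_induction with
  | mem x hx => exact h1 x hx q hq
  | zero => simp
  | add x y _ _ hx hy =>
    rw [Prod.fst_add, Prod.snd_add, add_dotProduct, add_dotProduct, hx, hy]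
  | smul c x _ hx =>
    rw [Prod.smul_fst, Prod.smul_snd, smul_dotProduct, smul_dotProduct, hx]

/-- An integer vector of norm one is plus or minus a unit vector. -/
theorem RIG_unit {m : ℕ} (w : Fin m → ℤ) (h : w ⬝ᵥ w = 1) :
    ∃ i, (w i = 1 ∨ w i = -1) ∧ ∀ j, j ≠ i → w j = 0 := by
  have hne : ∃ i, w i ≠ 0 := by
    by_contra hcon
    push Not at hcon
    have : w ⬝ᵥ w = 0 := by
      unfold dotProduct
      apply Finset.sum_eq_zero
      intro i _
      rw [hcon i, mul_zero]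
    omega
  obtain ⟨i, hi⟩ := hne
  have hsum : w i * w i + ∑ j ∈ Finset.univ.erase i, w j * w j = 1 := by
    rw [Finset.add_sum_erase _ (fun j => w j * w j) (Finset.mem_univ i)]
    exact h
  have hpos : 1 ≤ w i * w i := by
    have h0 : 0 < w i * w i := mul_self_pos.2 hi
    omega
  have hrest : 0 ≤ ∑ j ∈ Finset.univ.erase i, w j * w j :=
    Finset.sum_nonneg fun j _ => mul_self_nonneg (w j)
  have hi1 : w i * w i = 1 := by omega
  have hr0 : ∑ j ∈ Finset.univ.erase i, w j * w j = 0 := by omega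
  refine ⟨i, ?_, ?_⟩
  · exact Int.eq_one_or_neg_one_of_mul_eq_one' hi1 |>.elim (fun h => Or.inl h.1)
      (fun h => Or.inr h.1)
  · intro j hj
    have h2 := (Finset.sum_eq_zero_iff_of_nonneg (fun j _ => mul_self_nonneg (w j))).1 hr0 j
      (Finset.mem_erase.2 ⟨hj, Finset.mem_univ j⟩)
    exact mul_self_eq_zero.1 h2

theorem RIG : RIG_stmt := by
  intro m k H H' B B' hH hH' hK hm
  set G : Set ((Fin m → ℤ) × (Fin m → ℤ)) :=
    {p | ∃ (i : Fin k) (l : ℕ), p = ((H ^ l).mulVec (ind (B i)), (H' ^ l).mulVec (ind (B' i)))}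
    with hGdef
  have hgen : ∀ s : ℕ, ∀ p ∈ G, ∀ q ∈ G,
      p.1 ⬝ᵥ (H ^ s).mulVec q.1 = p.2 ⬝ᵥ (H' ^ s).mulVec q.2 := by
    rintro s p ⟨i, l, rfl⟩ q ⟨j, r, rfl⟩
    show (H ^ l).mulVec (ind (B i)) ⬝ᵥ (H ^ s).mulVec ((H ^ r).mulVec (ind (B j))) =
      (H' ^ l).mulVec (ind (B' i)) ⬝ᵥ (H' ^ s).mulVec ((H' ^ r).mulVec (ind (B' j)))
    rw [RIG_move H hH.2.2, RIG_move H' hH'.2.2]
    exact hm i j (l + s + r)
  have hspan : ∀ s : ℕ, ∀ p ∈ Submodule.span ℤ G, ∀ q ∈ Submodule.span ℤ G,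
      p.1 ⬝ᵥ (H ^ s).mulVec q.1 = p.2 ⬝ᵥ (H' ^ s).mulVec q.2 := fun s p hp q hq =>
    RIG_span (H ^ s) (H' ^ s) G (hgen s) p q hp hq
  have honto : ∀ v : Fin m → ℤ, ∃ w : Fin m → ℤ, (v, w) ∈ Submodule.span ℤ G := by
    intro v
    have hv : v ∈ Kry H (Set.range fun i => ind (B i)) := by
      rw [hK]
      exact Submodule.mem_top
    unfold Kry at hv
    induction hv using Submodule.span_induction with
    | mem x hx =>
      obtain ⟨b, ⟨i, hi⟩, l, hl⟩ := hx
      refine ⟨(H' ^ l).mulVec (ind (B' i)), Submodule.subset_span ⟨i, l, ?_⟩⟩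
      rw [hl, ← hi]
    | zero => exact ⟨0, Submodule.zero_mem _⟩
    | add x y _ _ hx hy =>
      obtain ⟨wx, hwx⟩ := hx
      obtain ⟨wy, hwy⟩ := hy
      exact ⟨wx + wy, Submodule.add_mem _ hwx hwy⟩
    | smul c x _ hx =>
      obtain ⟨wx, hwx⟩ := hx
      exact ⟨c • wx, Submodule.smul_mem _ c hwx⟩
  choose w hw using fun a : Fin m => honto (Pi.single a 1)
  have hinner : ∀ a b, w a ⬝ᵥ w b = if a = b then 1 else 0 := by
    intro a b
    have h1 := hspan 0 _ (hw a) _ (hw b)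
    rw [pow_zero, pow_zero, Matrix.one_mulVec, Matrix.one_mulVec] at h1
    rw [← h1]
    show Pi.single a (1 : ℤ) ⬝ᵥ Pi.single b (1 : ℤ) = _
    rw [single_one_dotProduct, Pi.single_apply]
  have hadj : ∀ a b, w a ⬝ᵥ H'.mulVec (w b) = H a b := by
    intro a b
    have h1 := hspan 1 _ (hw a) _ (hw b)
    rw [pow_one, pow_one] at h1
    rw [← h1]
    show Pi.single a (1 : ℤ) ⬝ᵥ H.mulVec (Pi.single b (1 : ℤ)) = _
    rw [single_one_dotProduct, Matrix.mulVec_single_one]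
    rfl
  choose σ hσ1 hσ0 using fun a : Fin m => RIG_unit (w a) (by rw [hinner, if_pos rfl])
  have hwa : ∀ a (v : Fin m → ℤ), w a ⬝ᵥ v = w a (σ a) * v (σ a) := by
    intro a v
    unfold dotProduct
    rw [Finset.sum_eq_single (σ a)]
    · intro j _ hj
      rw [hσ0 a j hj, zero_mul]
    · intro h
      exact absurd (Finset.mem_univ _) h
  have hinj : Function.Injective σ := by
    intro a b hab
    by_contra hne
    have h1 := hinner a b
    rw [if_neg hne, hwa, hab] at h1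
    rcases mul_eq_zero.1 h1 with h2 | h2
    · rw [← hab] at h2
      rcases hσ1 a with h3 | h3 <;> omega
    · rcases hσ1 b with h3 | h3 <;> omega
  have hbij : Function.Bijective σ := Finite.injective_iff_bijective.1 hinj
  refine ⟨Equiv.ofBijective σ hbij, fun a b => ?_⟩
  show H' (σ a) (σ b) = H a b
  have h1 := hadj a b
  rw [hwa] at h1
  have h2 : H'.mulVec (w b) (σ a) = H' (σ a) (σ b) * w b (σ b) := by
    show (fun j => H' (σ a) j) ⬝ᵥ w b = _
    rw [dotProduct_comm, hwa, mul_comm]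
  rw [h2] at h1
  have hx := hH'.1 (σ a) (σ b)
  have hy := hH.1 a b
  rcases hσ1 a with h3 | h3 <;> rcases hσ1 b with h4 | h4 <;> rw [h3, h4] at h1 <;> omega

end Pool.Agent.helper42.NS
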